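import Mathlib
import Pool.Agent.H964.QC.Stm

/-! # Project QC (helper964), task ALG: fourth moments of one layer of noise -/

set_option autoImplicit false

open MeasureTheory ProbabilityTheory Filter Finset
open Pool.Agent.H964.QC

namespace Pool.Agent.H972.QC

theorem pow_bound (x y z : ℝ) (i j k : ℕ) (h : i + j + k ≤ 4) :
    |x ^ i * y ^ j * z ^ k| ≤ 1 + x ^ 4 + y ^ 4 + z ^ 4 := by
  obtain ⟨m, hm⟩ : ∃ m, m = max 1 (max |x| (max |y| |z|)) := ⟨_, rfl⟩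
  have h1 : 1 ≤ m := by rw [hm]; exact le_max_left _ _
  have hx : |x| ≤ m := by rw [hm]; exact (le_max_left _ _).trans (le_max_right _ _)
  have hy : |y| ≤ m := by
    rw [hm]
    exact (le_max_left _ _).trans ((le_max_right _ _).trans (le_max_right _ _))
  have hz : |z| ≤ m := by
    rw [hm]
    exact (le_max_right _ _).trans ((le_max_right _ _).trans (le_max_right _ _))
  have h0 : 0 ≤ m := zero_le_one.trans h1
  have h2 : |x ^ i * y ^ j * z ^ k| ≤ m ^ (i + j + k) := by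
    rw [abs_mul, abs_mul, abs_pow, abs_pow, abs_pow, pow_add, pow_add]
    gcongr
  have h3 : m ^ (i + j + k) ≤ m ^ 4 := pow_le_pow_right₀ h1 h
  have e4 : ∀ t : ℝ, |t| ^ 4 = t ^ 4 := fun t => Even.pow_abs (by decide) t
  have px : 0 ≤ x ^ 4 := by positivity
  have py : 0 ≤ y ^ 4 := by positivity
  have pz : 0 ≤ z ^ 4 := by positivity
  have h4 : m ^ 4 ≤ 1 + x ^ 4 + y ^ 4 + z ^ 4 := by
    rcases max_choice 1 (max |x| (max |y| |z|)) with h | h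
    · rw [hm, h]; linarith
    · rcases max_choice |x| (max |y| |z|) with h' | h'
      · rw [hm, h, h', e4]; linarith
      · rcases max_choice |y| |z| with h'' | h''
        · rw [hm, h, h', h'', e4]; linarith
        · rw [hm, h, h', h'', e4]; linarith
  exact h2.trans (h3.trans h4)

section

variable {Ω : Type} [MeasurableSpace Ω] {P : Measure Ω} [IsProbabilityMeasure P]

theorem int3 {X Y Z : Ω → ℝ} (hX : Measurable X) (hY : Measurable Y) (hZ : Measurable Z)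
    (h4X : Integrable (fun ω => X ω ^ 4) P) (h4Y : Integrable (fun ω => Y ω ^ 4) P)
    (h4Z : Integrable (fun ω => Z ω ^ 4) P) (i j k : ℕ) (h : i + j + k ≤ 4) :
    Integrable (fun ω => X ω ^ i * Y ω ^ j * Z ω ^ k) P := by
  refine Integrable.mono' (g := fun ω => 1 + X ω ^ 4 + Y ω ^ 4 + Z ω ^ 4) ?_ ?_ ?_
  · exact (((integrable_const (1:ℝ)).add h4X).add h4Y).add h4Z
  · exact (((hX.pow_const i).mul (hY.pow_const j)).mul (hZ.pow_const k)).aestronglyMeasurable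
  · exact Eventually.of_forall fun ω => by
      rw [Real.norm_eq_abs]
      exact pow_bound _ _ _ i j k h

theorem int_poly {X Y Z : Ω → ℝ} (hX : Measurable X) (hY : Measurable Y) (hZ : Measurable Z)
    (h4X : Integrable (fun ω => X ω ^ 4) P) (h4Y : Integrable (fun ω => Y ω ^ 4) P)
    (h4Z : Integrable (fun ω => Z ω ^ 4) P) {n : ℕ} (c : Fin n → ℝ) (i j k : Fin n → ℕ)
    (h : ∀ l, i l + j l + k l ≤ 4) :
    ∫ ω, ∑ l, c l * (X ω ^ i l * Y ω ^ j l * Z ω ^ k l) ∂P =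
      ∑ l, c l * ∫ ω, X ω ^ i l * Y ω ^ j l * Z ω ^ k l ∂P := by
  rw [integral_finsetSum _ (fun l _ => (int3 hX hY hZ h4X h4Y h4Z _ _ _ (h l)).const_mul _)]
  refine Finset.sum_congr rfl fun l _ => ?_
  rw [integral_const_mul]

theorem int4_add {X Z : Ω → ℝ} (hX : Measurable X) (hZ : Measurable Z)
    (h4X : Integrable (fun ω => X ω ^ 4) P) (h4Z : Integrable (fun ω => Z ω ^ 4) P) (g : ℝ) :
    Integrable (fun ω => (g * Z ω + X ω) ^ 4) P := by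
  refine Integrable.mono' (g := fun ω => 8 * (g ^ 4 * Z ω ^ 4) + 8 * X ω ^ 4) ?_ ?_ ?_
  · exact ((h4Z.const_mul _).const_mul _).add (h4X.const_mul _)
  · exact (((hZ.const_mul g).add hX).pow_const 4).aestronglyMeasurable
  · refine Eventually.of_forall fun ω => ?_
    rw [Real.norm_eq_abs, abs_of_nonneg (by positivity)]
    have key : ∀ a b : ℝ, (a + b) ^ 4 ≤ 8 * a ^ 4 + 8 * b ^ 4 := by
      intro a b
      nlinarith [sq_nonneg (a - b), sq_nonneg (a ^ 2 - b ^ 2), sq_nonneg (a * b - a ^ 2),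
        sq_nonneg (a * b - b ^ 2), mul_nonneg (sq_nonneg (a - b)) (sq_nonneg (a + b)),
        mul_nonneg (sq_nonneg (a - b)) (sq_nonneg (a - b)),
        mul_nonneg (sq_nonneg (a - b)) (sq_nonneg a), mul_nonneg (sq_nonneg (a - b)) (sq_nonneg b)]
    have := key (g * Z ω) (X ω)
    rw [mul_pow] at this
    exact this

/-- The moments of one step. -/
theorem step {X Y Z : Ω → ℝ} (hX : Measurable X) (hY : Measurable Y) (hZ : Measurable Z)
    (h4X : Integrable (fun ω => X ω ^ 4) P) (h4Y : Integrable (fun ω => Y ω ^ 4) P)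
    (h4Z : Integrable (fun ω => Z ω ^ 4) P) (hind : IndepFun (fun ω => (X ω, Y ω)) Z P)
    (z1 : ∫ ω, Z ω ∂P = 0) (g h : ℝ) :
    (∫ ω, (g * Z ω + X ω) ∂P = ∫ ω, X ω ∂P) ∧
    (∫ ω, (g * Z ω + X ω) ^ 2 ∂P = ∫ ω, X ω ^ 2 ∂P + g ^ 2 * ∫ ω, Z ω ^ 2 ∂P) ∧
    (∫ ω, (g * Z ω + X ω) * (h * Z ω + Y ω) ∂P = ∫ ω, X ω * Y ω ∂P + g * h * ∫ ω, Z ω ^ 2 ∂P) ∧
    (∫ ω, (g * Z ω + X ω) ^ 2 * (h * Z ω + Y ω) ^ 2 ∂P = ∫ ω, X ω ^ 2 * Y ω ^ 2 ∂P
      + (h ^ 2 * ∫ ω, X ω ^ 2 ∂P + g ^ 2 * ∫ ω, Y ω ^ 2 ∂P + 4 * g * h * ∫ ω, X ω * Y ω ∂P) *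
          ∫ ω, Z ω ^ 2 ∂P
      + (2 * g * h ^ 2 * ∫ ω, X ω ∂P + 2 * g ^ 2 * h * ∫ ω, Y ω ∂P) * ∫ ω, Z ω ^ 3 ∂P
      + g ^ 2 * h ^ 2 * ∫ ω, Z ω ^ 4 ∂P) := by
  have hprod : ∀ i j k : ℕ, ∫ ω, X ω ^ i * Y ω ^ j * Z ω ^ k ∂P =
      (∫ ω, X ω ^ i * Y ω ^ j ∂P) * ∫ ω, Z ω ^ k ∂P := by
    intro i j k
    have := hind.integral_fun_comp_mul_comp (f := fun p : ℝ × ℝ => p.1 ^ i * p.2 ^ j)
      (g := fun y : ℝ => y ^ k) (hX.prodMk hY).aemeasurable hZ.aemeasurable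
      ((measurable_fst.pow_const i).mul (measurable_snd.pow_const j)).aestronglyMeasurable
      (measurable_id.pow_const k).aestronglyMeasurable
    exact this
  have hone : ∫ _ω, (1:ℝ) ∂P = 1 := by simp
  have P1 := int_poly hX hY hZ h4X h4Y h4Z ![g, 1] ![0, 1] ![0, 0] ![1, 0] (by
    intro l; fin_cases l <;> simp)
  have P2 := int_poly hX hY hZ h4X h4Y h4Z ![g ^ 2, 2 * g, 1] ![0, 1, 2] ![0, 0, 0] ![2, 1, 0] (by
    intro l; fin_cases l <;> simp)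
  have P3 := int_poly hX hY hZ h4X h4Y h4Z ![g * h, g, h, 1] ![0, 0, 1, 1] ![0, 1, 0, 1]
    ![2, 1, 1, 0] (by intro l; fin_cases l <;> simp)
  have P4 := int_poly hX hY hZ h4X h4Y h4Z
    ![1, 2 * h, h ^ 2, 2 * g, 4 * g * h, 2 * g * h ^ 2, g ^ 2, 2 * g ^ 2 * h, g ^ 2 * h ^ 2]
    ![2, 2, 2, 1, 1, 1, 0, 0, 0] ![2, 1, 0, 2, 1, 0, 2, 1, 0] ![0, 1, 2, 1, 2, 3, 2, 3, 4]
    (by intro l; fin_cases l <;> simp)
  simp only [hprod] at P1 P2 P3 P4
  simp [Fin.sum_univ_succ, z1] at P1 P2 P3 P4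
  refine ⟨?_, ?_, ?_, ?_⟩
  · rw [← P1]
  · rw [add_comm (∫ ω, X ω ^ 2 ∂P), ← P2]
    refine integral_congr_ae (Eventually.of_forall fun ω => ?_)
    simp only
    ring
  · rw [add_comm (∫ ω, X ω * Y ω ∂P), ← P3]
    refine integral_congr_ae (Eventually.of_forall fun ω => ?_)
    simp only
    ring
  · refine (Eq.trans ?_ P4).trans ?_
    · refine integral_congr_ae (Eventually.of_forall fun ω => ?_)
      simp only
      ring
    · ring

/-- All moments of a linear form plus a constant. -/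
theorem moments {V : Type} [Fintype V] [DecidableEq V] (x : V → Ω → ℝ)
    (hm : ∀ v, Measurable (x v)) (hind : iIndepFun x P) (h4 : ∀ v, Integrable (fun ω => x v ω ^ 4) P)
    (h1 : ∀ v, ∫ ω, x v ω ∂P = 0) (s2 : ℝ) (h2 : ∀ v, ∫ ω, x v ω ^ 2 ∂P = s2) (A B : ℝ) (g h : V → ℝ)
    (S : Finset V) :
    Integrable (fun ω => (A + ∑ z ∈ S, g z * x z ω) ^ 4) P ∧
    Integrable (fun ω => (B + ∑ z ∈ S, h z * x z ω) ^ 4) P ∧
    (∫ ω, (A + ∑ z ∈ S, g z * x z ω) ∂P = A) ∧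
    (∫ ω, (B + ∑ z ∈ S, h z * x z ω) ∂P = B) ∧
    (∫ ω, (A + ∑ z ∈ S, g z * x z ω) ^ 2 ∂P = A ^ 2 + s2 * ∑ z ∈ S, g z ^ 2) ∧
    (∫ ω, (B + ∑ z ∈ S, h z * x z ω) ^ 2 ∂P = B ^ 2 + s2 * ∑ z ∈ S, h z ^ 2) ∧
    (∫ ω, (A + ∑ z ∈ S, g z * x z ω) * (B + ∑ z ∈ S, h z * x z ω) ∂P =
      A * B + s2 * ∑ z ∈ S, g z * h z) ∧
    (∫ ω, (A + ∑ z ∈ S, g z * x z ω) ^ 2 * (B + ∑ z ∈ S, h z * x z ω) ^ 2 ∂P =
      A ^ 2 * B ^ 2 + s2 * (A ^ 2 * ∑ z ∈ S, h z ^ 2) + s2 * (B ^ 2 * ∑ z ∈ S, g z ^ 2)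
      + 4 * s2 * (A * B * ∑ z ∈ S, g z * h z)
      + 2 * A * ∑ z ∈ S, g z * h z ^ 2 * ∫ ω, x z ω ^ 3 ∂P
      + 2 * B * ∑ z ∈ S, g z ^ 2 * h z * ∫ ω, x z ω ^ 3 ∂P
      + ∑ z ∈ S, g z ^ 2 * h z ^ 2 * ∫ ω, x z ω ^ 4 ∂P
      + s2 ^ 2 * ((∑ z ∈ S, g z ^ 2) * (∑ z ∈ S, h z ^ 2) - ∑ z ∈ S, g z ^ 2 * h z ^ 2)
      + 2 * s2 ^ 2 * ((∑ z ∈ S, g z * h z) ^ 2 - ∑ z ∈ S, g z ^ 2 * h z ^ 2)) := by
  have hmeas : ∀ (A : ℝ) (g : V → ℝ) (S : Finset V),
      Measurable (fun ω => A + ∑ z ∈ S, g z * x z ω) := fun A g S =>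
    measurable_const.add (Finset.measurable_sum _ fun z _ => (hm z).const_mul _)
  induction S using Finset.induction_on with
  | empty => simp
  | insert a S ha ih =>
    obtain ⟨i1, i2, i3, i4, i5, i6, i7, i8⟩ := ih
    have hI : IndepFun (fun ω => (A + ∑ z ∈ S, g z * x z ω, B + ∑ z ∈ S, h z * x z ω)) (x a) P := by
      have k1 := hind.indepFun_finset S {a} (Finset.disjoint_singleton_right.2 ha) hm
      have k2 : IndepFun
          ((fun v : S → ℝ => (A + ∑ z : S, g z * v z, B + ∑ z : S, h z * v z)) ∘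
            (fun ω (i : S) => x i ω))
          ((fun v : ({a} : Finset V) → ℝ => v ⟨a, Finset.mem_singleton_self a⟩) ∘
            (fun ω (i : ({a} : Finset V)) => x i ω)) P :=
        k1.comp (by fun_prop) (measurable_pi_apply _)
      have e1 : (fun ω => (A + ∑ z ∈ S, g z * x z ω, B + ∑ z ∈ S, h z * x z ω)) =
          (fun v : S → ℝ => (A + ∑ z : S, g z * v z, B + ∑ z : S, h z * v z)) ∘
            (fun ω (i : S) => x i ω) := by
        funext ω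
        simp only [Function.comp]
        rw [Finset.sum_coe_sort S (fun z => g z * x z ω), Finset.sum_coe_sort S (fun z => h z * x z ω)]
      rw [e1]
      exact k2
    have eX : ∀ (A : ℝ) (g : V → ℝ) ω, A + ∑ z ∈ insert a S, g z * x z ω =
        g a * x a ω + (A + ∑ z ∈ S, g z * x z ω) := by
      intro A g ω
      rw [Finset.sum_insert ha]
      ring
    obtain ⟨j1, j2, j3, j4⟩ := step (hmeas A g S) (hmeas B h S) (hm a) i1 i2 (h4 a) hI (h1 a) (g a) (h a)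
    have hI' : IndepFun (fun ω => (B + ∑ z ∈ S, h z * x z ω, A + ∑ z ∈ S, g z * x z ω)) (x a) P := by
      have := hI.comp (φ := Prod.swap) (ψ := id) measurable_swap measurable_id
      exact this
    obtain ⟨l1, l2, -, -⟩ := step (hmeas B h S) (hmeas A g S) (hm a) i2 i1 (h4 a) hI' (h1 a) (h a) (g a)
    simp only [eX]
    refine ⟨int4_add (hmeas A g S) (hm a) i1 (h4 a) _, int4_add (hmeas B h S) (hm a) i2 (h4 a) _,
      ?_, ?_, ?_, ?_, ?_, ?_⟩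
    · rw [j1, i3]
    · rw [l1, i4]
    · rw [j2, i5, h2, Finset.sum_insert ha]; ring
    · rw [l2, i6, h2, Finset.sum_insert ha]; ring
    · rw [j3, i7, h2, Finset.sum_insert ha]; ring
    · rw [j4, i3, i4, i5, i6, i7, i8, h2]
      simp only [Finset.sum_insert ha]
      ring

end

theorem t_ALG : S_ALG := by
  intro V _ _ Ω _ P _ s2 κ η hη n A B g h hg hh
  have hind : iIndepFun (fun z : V => η n z) P :=
    hη.indep.precomp (g := fun z : V => (n, z)) (fun a b hab => (Prod.mk.inj hab).2)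
  have M := moments (fun z : V => η n z) (fun v => hη.meas n v) hind (fun v => hη.int4 n v)
    (fun v => hη.m1 n v) s2 (fun v => hη.m2 n v)
  have key : ∀ (A B : ℝ) (g h : V → ℝ), (∀ z, 0 ≤ g z) → (∀ z, 0 ≤ h z) →
    (∫ ω, (A + ∑ z, g z * η n z ω) ^ 2 * (B + ∑ z, h z * η n z ω) ^ 2 ∂P ≤
    A ^ 2 * B ^ 2 + s2 * (A ^ 2 * ∑ z, h z ^ 2) + s2 * (B ^ 2 * ∑ z, g z ^ 2)
      + 4 * s2 * (|A| * |B| * ∑ z, g z * h z)
      + 2 * κ * s2 * (|A| * ∑ z, g z * h z ^ 2) + 2 * κ * s2 * (|B| * ∑ z, g z ^ 2 * h z)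
      + κ * s2 * (∑ z, g z ^ 2 * h z ^ 2) + s2 ^ 2 * (∑ z, ∑ z', g z ^ 2 * h z' ^ 2)
      + 2 * s2 ^ 2 * (∑ z, ∑ z', g z * h z * (g z' * h z'))) := by
    intro A B g h hg hh
    obtain ⟨-, -, -, -, -, -, -, e⟩ := M A B g h Finset.univ
    rw [e]
    have q1 : 0 ≤ s2 * ∑ z, g z * h z := by
      rw [Finset.mul_sum]
      refine Finset.sum_nonneg fun z _ => ?_
      have : 0 ≤ s2 := by
        rw [← hη.m2 n z]
        exact integral_nonneg fun ω => by positivity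
      exact mul_nonneg this (mul_nonneg (hg z) (hh z))
    have q2 : A * B ≤ |A| * |B| := by rw [← abs_mul]; exact le_abs_self _
    have r1 : 4 * s2 * (A * B * ∑ z, g z * h z) ≤ 4 * s2 * (|A| * |B| * ∑ z, g z * h z) := by
      nlinarith [mul_le_mul_of_nonneg_right q2 q1]
    have r2 : ∀ (A : ℝ) (f : V → ℝ), (∀ z, 0 ≤ f z) →
        2 * A * ∑ z, f z * ∫ ω, η n z ω ^ 3 ∂P ≤ 2 * κ * s2 * (|A| * ∑ z, f z) := by
      intro A f hf
      have s1 : A * ∑ z, f z * ∫ ω, η n z ω ^ 3 ∂P ≤ |A| * ∑ z, f z * (κ * s2) := by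
        refine (le_abs_self _).trans ?_
        rw [abs_mul]
        refine mul_le_mul_of_nonneg_left ?_ (abs_nonneg _)
        refine (Finset.abs_sum_le_sum_abs _ _).trans (Finset.sum_le_sum fun z _ => ?_)
        rw [abs_mul, abs_of_nonneg (hf z)]
        exact mul_le_mul_of_nonneg_left (hη.m3 n z) (hf z)
      rw [← Finset.sum_mul] at s1
      linarith
    have r3 := r2 A (fun z => g z * h z ^ 2) (fun z => mul_nonneg (hg z) (sq_nonneg _))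
    have r4 := r2 B (fun z => g z ^ 2 * h z) (fun z => mul_nonneg (sq_nonneg _) (hh z))
    have r5 : ∑ z, g z ^ 2 * h z ^ 2 * ∫ ω, η n z ω ^ 4 ∂P ≤ κ * s2 * ∑ z, g z ^ 2 * h z ^ 2 := by
      rw [Finset.mul_sum]
      refine Finset.sum_le_sum fun z _ => ?_
      rw [mul_comm (κ * s2)]
      exact mul_le_mul_of_nonneg_left (hη.m4 n z) (mul_nonneg (sq_nonneg _) (sq_nonneg _))
    have r6 : 0 ≤ ∑ z, g z ^ 2 * h z ^ 2 :=
      Finset.sum_nonneg fun z _ => mul_nonneg (sq_nonneg _) (sq_nonneg _)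
    have r7 : 0 ≤ s2 ^ 2 * ∑ z, g z ^ 2 * h z ^ 2 := mul_nonneg (sq_nonneg _) r6
    have e1 : (∑ z, g z ^ 2) * (∑ z, h z ^ 2) = ∑ z, ∑ z', g z ^ 2 * h z' ^ 2 := by
      rw [Finset.sum_mul_sum]
    have e2 : (∑ z, g z * h z) ^ 2 = ∑ z, ∑ z', g z * h z * (g z' * h z') := by
      rw [sq, Finset.sum_mul_sum]
    rw [e1, e2]
    linarith
  refine ⟨?_, key A B g h hg hh, ?_⟩
  · obtain ⟨-, -, -, -, e, -⟩ := M A B g h Finset.univ
    exact e
  · have k := key A A g g hg hg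
    have e0 : (fun ω => (A + ∑ z, g z * η n z ω) ^ 2 * (A + ∑ z, g z * η n z ω) ^ 2) =
        fun ω => (A + ∑ z, g z * η n z ω) ^ 4 := by
      funext ω; ring
    rw [e0] at k
    refine k.trans (le_of_eq ?_)
    have a1 : |A| * |A| = A ^ 2 := by rw [← abs_mul, ← sq, abs_of_nonneg (sq_nonneg A)]
    have a2 : ∑ z, g z * g z = ∑ z, g z ^ 2 := Finset.sum_congr rfl fun z _ => by ring
    have a3 : ∑ z, g z * g z ^ 2 = ∑ z, g z ^ 3 := Finset.sum_congr rfl fun z _ => by ring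
    have a4 : ∑ z, g z ^ 2 * g z = ∑ z, g z ^ 3 := Finset.sum_congr rfl fun z _ => by ring
    have a5 : ∑ z, g z ^ 2 * g z ^ 2 = ∑ z, g z ^ 4 := Finset.sum_congr rfl fun z _ => by ring
    have a6 : ∑ z, ∑ z', g z * g z * (g z' * g z') = ∑ z, ∑ z', g z ^ 2 * g z' ^ 2 :=
      Finset.sum_congr rfl fun z _ => Finset.sum_congr rfl fun z' _ => by ring
    rw [a1, a2, a3, a4, a5, a6]
    ring

end Pool.Agent.H972.QC
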